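import Mathlib

set_option autoImplicit false

/-!
# The embedding of the fraction field of a discrete valuation ring `O` over a field `k`, with
residue field `k`, into `k((t))`
-/

namespace Pool.Agent.X321.CV

section

variable {k O : Type} [Field k] [CommRing O] [IsDomain O] [IsDiscreteValuationRing O]

theorem exists_series (φ : k →+* O) (s : O →+* k) (hs : ∀ c, s (φ c) = c) (π : O)
    (hπ : Irreducible π) (hdvd : ∀ a, π ∣ a - φ (s a)) :
    ∃ S : O →+* PowerSeries k, Function.Injective S ∧ ∀ c, S (φ c) = PowerSeries.C c := by
  have hπ0 : π ≠ 0 := hπ.ne_zero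
  choose D hD using hdvd
  have hadd : ∀ a b, D (a + b) = D a + D b := by
    intro a b
    apply mul_left_cancel₀ hπ0
    rw [mul_add, ← hD, ← hD, ← hD, map_add, map_add]
    ring
  have hmul : ∀ a b, D (a * b) = D a * b + φ (s a) * D b := by
    intro a b
    apply mul_left_cancel₀ hπ0
    have e1 := hD a
    have e2 := hD b
    have e3 := hD (a * b)
    rw [map_mul, map_mul] at e3
    linear_combination (-1 : O) * e3 + b * e1 + φ (s a) * e2
  have hzero : ∀ n, D^[n] 0 = 0 := by
    have h0 : D 0 = 0 := by
      have := hadd 0 0
      rw [add_zero] at this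
      exact left_eq_add.mp this
    intro n
    induction n with
    | zero => rfl
    | succ n ih => rw [Function.iterate_succ_apply, h0, ih]
  have hC : ∀ c, D (φ c) = 0 := by
    intro c
    apply mul_left_cancel₀ hπ0
    rw [← hD, hs, sub_self, mul_zero]
  have hC' : ∀ n c, D^[n + 1] (φ c) = 0 := by
    intro n c
    rw [Function.iterate_succ_apply, hC, hzero]
  have hitadd : ∀ n a b, D^[n] (a + b) = D^[n] a + D^[n] b := by
    intro n
    induction n with
    | zero => intro a b; rfl
    | succ n ih => intro a b; simp only [Function.iterate_succ_apply]; rw [hadd, ih]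
  have hitmul : ∀ n a b, s (D^[n] (a * b)) =
      ∑ p ∈ Finset.HasAntidiagonal.antidiagonal n, s (D^[p.1] a) * s (D^[p.2] b) := by
    intro n
    induction n with
    | zero => intro a b; simp
    | succ n ih =>
      intro a b
      rw [Function.iterate_succ_apply, hmul, hitadd, map_add, ih, ih,
        Finset.Nat.sum_antidiagonal_succ, add_comm]
      congr 1
      · cases n with
        | zero => simp [hs]
        | succ n =>
          rw [Finset.Nat.sum_antidiagonal_succ]
          rw [Finset.sum_eq_zero]
          · simp [hs, Function.iterate_succ_apply]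
          · intro p _
            rw [hC', map_zero, zero_mul]
  have hD1 : D 1 = 0 := by
    have := hC 1
    rwa [map_one] at this
  refine ⟨{ toFun := fun a => PowerSeries.mk fun n => s (D^[n] a), map_one' := ?_, map_mul' := ?_, map_zero' := ?_, map_add' := ?_ }, ?_, ?_⟩
  · ext n
    rw [PowerSeries.coeff_mk, PowerSeries.coeff_one]
    cases n with
    | zero => simp
    | succ n => rw [Function.iterate_succ_apply, hD1, hzero]; simp
  · intro a b
    ext n
    rw [PowerSeries.coeff_mk, PowerSeries.coeff_mul, hitmul]
    simp only [PowerSeries.coeff_mk]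
  · ext n
    rw [PowerSeries.coeff_mk, hzero]
    simp
  · intro a b
    ext n
    rw [PowerSeries.coeff_mk, hitadd]
    simp
  · rw [injective_iff_map_eq_zero]
    intro a ha
    have hn : ∀ n, s (D^[n] a) = 0 := by
      intro n
      have := congrArg (PowerSeries.coeff n) ha
      simpa using this
    have hpow : ∀ n, a = π ^ n * D^[n] a := by
      intro n
      induction n with
      | zero => simp
      | succ n ih =>
        have h1 := hD (D^[n] a)
        rw [hn n, map_zero, sub_zero] at h1
        rw [Function.iterate_succ_apply']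
        calc a = π ^ n * D^[n] a := ih
          _ = π ^ n * (π * D (D^[n] a)) := by rw [← h1]
          _ = π ^ (n + 1) * D (D^[n] a) := by ring
    by_contra h0
    obtain ⟨m, u, hu⟩ := IsDiscreteValuationRing.eq_unit_mul_pow_irreducible h0 hπ
    have h2 := hpow (m + 1)
    rw [hu] at h2
    have h3 : π ^ m * (u : O) = π ^ m * (π * D^[m + 1] ((u : O) * π ^ m)) := by
      calc π ^ m * (u : O) = (u : O) * π ^ m := by ring
        _ = π ^ (m + 1) * D^[m + 1] ((u : O) * π ^ m) := h2
        _ = _ := by ring
    have h4 := mul_left_cancel₀ (pow_ne_zero m hπ0) h3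
    exact hπ.not_isUnit (isUnit_of_dvd_unit ⟨_, h4⟩ u.isUnit)
  · intro c
    ext n
    change PowerSeries.coeff n (PowerSeries.mk fun n => s (D^[n] (φ c))) = _
    rw [PowerSeries.coeff_mk, PowerSeries.coeff_C]
    cases n with
    | zero => simp [hs]
    | succ n => rw [hC']; simp

theorem exists_laurent {F : Type} [Field F] [Algebra O F] [IsFractionRing O F] (φ : k →+* O)
    (h : Function.Bijective ((IsLocalRing.residue O).comp φ)) :
    ∃ χ : F →+* LaurentSeries k, χ.comp ((algebraMap O F).comp φ) = HahnSeries.C := by
  set e : k ≃+* IsLocalRing.ResidueField O := RingEquiv.ofBijective _ h with he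
  obtain ⟨π, hπ⟩ := IsDiscreteValuationRing.exists_irreducible O
  have hs : ∀ c, ((e.symm : _ →+* k).comp (IsLocalRing.residue O)) (φ c) = c := by
    intro c
    change e.symm (IsLocalRing.residue O (φ c)) = c
    rw [RingEquiv.symm_apply_eq]
    rfl
  obtain ⟨S, hS, hSc⟩ := exists_series φ ((e.symm : _ →+* k).comp (IsLocalRing.residue O)) hs π hπ
    (fun a => by
      have h1 : a - φ (e.symm (IsLocalRing.residue O a)) ∈ IsLocalRing.maximalIdeal O := by
        rw [← IsLocalRing.residue_eq_zero_iff, map_sub, sub_eq_zero]
        exact (e.apply_symm_apply (IsLocalRing.residue O a)).symm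
      rw [hπ.maximalIdeal_eq, Ideal.mem_span_singleton] at h1
      exact h1)
  have hg : Function.Injective ((HahnSeries.ofPowerSeries ℤ k).comp S) :=
    HahnSeries.ofPowerSeries_injective.comp hS
  refine ⟨IsFractionRing.lift hg, ?_⟩
  ext1 c
  change IsFractionRing.lift hg (algebraMap O F (φ c)) = HahnSeries.C c
  rw [IsFractionRing.lift_algebraMap]
  change HahnSeries.ofPowerSeries ℤ k (S (φ c)) = _
  rw [hSc, HahnSeries.ofPowerSeries_C]

end

end Pool.Agent.X321.CV
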