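import Pool.Agent.X321.HS.Cls
import Pool.Agent.TH358.BG.Defs

set_option autoImplicit false

/-!
# The constants in the complexes `Γ(X,n) ⊗ ℚ` of a curve `X`
-/

namespace Pool.Agent.X321.CV

open GonP Pool.Agent.TH358.BG Pool.Agent.X321.HS
open Pool.Agent.TH358.GP (Induced InducedL exists_T exists_S isLin)
open Pool.Agent.X321.UP (CohInjective comm_d comm_e)

section defs

variable {k K F : Type} [Field k] [Field K] [Field F] {X : Type} {κ : X → Type}
  [∀ x, Field (κ x)]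

/-- `P` is the `ℚ`-linear map of a term `GT` of `Γ(k,n) ⊗ ℚ` to that of `Γ(K,n) ⊗ ℚ` induced by
`ψ : k → K` -/
def GInd (ψ : k →+* K) : ∀ m j, (GT k m j → GT K m j) → Prop
  | 0, _ => fun _ => True
  | 1, j => fun S => InducedL ψ (j + 1) S
  | (m + 2), j => fun T => Induced ψ (m + 2) j T

/-- the image of `a`, an element of a term of `Γ(k,n) ⊗ ℚ`, in `Γ(K,n) ⊗ ℚ` is a boundary -/
def DiesInField (ψ : k →+* K) (DK : Differentials K) (m j : ℕ) (a : GT k m (j + 1)) : Prop :=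
  ∃ (P : GT k m (j + 1) → GT K m (j + 1)) (z : GT K (m + 1) j),
    GInd ψ m (j + 1) P ∧ gd DK m j z = P a

/-- the image `(φ a, 0)` of `a`, an element of a term of `Γ(k,n) ⊗ ℚ`, in `Γ(X,n) ⊗ ℚ` is a
boundary, where `X` is a curve with function field `F`, and `φ : k → F` -/
def DiesInCurve (φ : k →+* F) (DF : Differentials F) (Dκ : ∀ x, Differentials (κ x))
    (res : Res F κ) (m j : ℕ) (a : GT k m (j + 1)) : Prop :=
  ∃ (P : GT k m (j + 1) → GT F m (j + 1)) (z : XT F κ (m + 1) j),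
    GInd φ m (j + 1) P ∧ tot DF Dκ res m j z = (P a, 0)

/-- the image of `a`, an element of a term of `Γ(k,n) ⊗ ℚ`, in `Γ(K,n) ⊗ ℚ` is zero -/
def IsZeroIn (ψ : k →+* K) (m j : ℕ) (a : GT k m j) : Prop :=
  ∃ P : GT k m j → GT K m j, GInd ψ m j P ∧ P a = 0

end defs

section

variable {k K F E : Type} [Field k] [Field K] [Field F] [Field E]

/-- the square `ε ψ = χ φ` with `ε` injective on cohomology -/
theorem kernel_square (φ : k →+* F) (ψ : k →+* K) (χ : F →+* E) (ε : K →+* E)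
    (hsq : ε.comp ψ = χ.comp φ) (hcε : CohInjective ε) : KernelLe φ ψ := by
  obtain ⟨T, S, hT, hS, hc⟩ := hcε
  choose A hA using fun m j => exists_T χ m j
  choose B' hB using fun j => exists_S χ j
  choose I hI using fun m j => exists_T ψ m j
  choose J hJ using fun j => exists_S ψ j
  choose C hC using fun m j => exists_T (χ.comp φ) m j
  choose G hG using fun j => exists_S (χ.comp φ) j
  obtain ⟨DΩ, -⟩ := exists_unique_D K
  obtain ⟨DE, -⟩ := exists_unique_D E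
  have a1 : ∀ m j (X : TQ k (m + 2) j → TQ F (m + 2) j), Induced φ (m + 2) j X →
      ∀ u, A m j (X u) = T m j (I m j u) := by
    intro m j X hX u
    rw [ind_comp (T' := fun u => A m j u) (T'' := fun u => C m j u) hX ⟨isLin _, hA m j⟩
      ⟨isLin _, hC m j⟩ u]
    refine (ind_comp (T := fun u => I m j u) (T'' := fun u => C m j u) ⟨isLin _, hI m j⟩
      (hT m j).1 ?_ u).symm
    rw [hsq]
    exact ⟨isLin _, hC m j⟩
  have a2 : ∀ j (X : LQ k j → LQ F j), InducedL φ j X →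
      ∀ u, B' j (X u) = S j (J j u) := by
    intro j X hX u
    rw [indL_comp (T' := fun u => B' j u) (T'' := fun u => G j u) hX ⟨isLin _, hB j⟩
      ⟨isLin _, hG j⟩ u]
    refine (indL_comp (T := fun u => J j u) (T'' := fun u => G j u) ⟨isLin _, hJ j⟩
      (hS j).1 ?_ u).symm
    rw [hsq]
    exact ⟨isLin _, hG j⟩
  refine ⟨?_, ?_, ?_, ?_⟩
  · rintro m j u ⟨D', X, v, hX, hv⟩
    have e := comm_d χ A hA D' DE m j v
    rw [hv, a1 m (j + 1) X hX u] at e
    obtain ⟨w, hw⟩ := (hc DΩ DE).2.2.1 m j (I m (j + 1) u) _ e.symm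
    exact ⟨DΩ, fun u => I m (j + 1) u, w, ⟨isLin _, hI m (j + 1)⟩, hw⟩
  · rintro j u ⟨D', X, v, hX, hv⟩
    have e := comm_e χ A hA B' hB D' DE j v
    rw [hv, a2 (j + 2) X hX u] at e
    obtain ⟨w, hw⟩ := (hc DΩ DE).2.2.2 j (J (j + 2) u) _ e.symm
    exact ⟨DΩ, fun u => J (j + 2) u, w, ⟨isLin _, hJ (j + 2)⟩, hw⟩
  · rintro m j u ⟨X, hX, hu⟩
    refine ⟨fun u => I m j u, ⟨isLin _, hI m j⟩, ?_⟩
    apply (hT m j).2
    change T m j (I m j u) = T m j 0
    rw [← a1 m j X hX u, hu, map_zero]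
    exact ((hT m j).1.1.mk' _).map_zero.symm
  · rintro j u ⟨X, hX, hu⟩
    refine ⟨fun u => J j u, ⟨isLin _, hJ j⟩, ?_⟩
    apply (hS j).2
    change S j (J j u) = S j 0
    rw [← a2 j X hX u, hu, map_zero]
    exact ((hS j).1.1.mk' _).map_zero.symm

theorem cohInj_laurent (K : Type) [Field K] :
    CohInjective (HahnSeries.C : K →+* LaurentSeries K) := by
  obtain ⟨T⟩ := (placeExt_laurent K).retr
  exact cohInj T

theorem dies (φ : k →+* F) (ψ : k →+* K) (h : KernelLe φ ψ) {X : Type} {κ : X → Type}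
    [∀ x, Field (κ x)] (DF : Differentials F) (Dκ : ∀ x, Differentials (κ x)) (res : Res F κ)
    (DK : Differentials K) (m j : ℕ) (a : GT k m (j + 1))
    (ha : DiesInCurve φ DF Dκ res m j a) : DiesInField ψ DK m j a := by
  obtain ⟨P, z, hP, hz⟩ := ha
  have hz1 : gd DF m j z.1 = P a := congrArg Prod.fst hz
  obtain ⟨DU, hDU⟩ := exists_unique_D K
  match m with
  | 0 => exact ⟨fun _ => PUnit.unit, 0, trivial, rfl⟩
  | 1 =>
    obtain ⟨D', S, v, hS, hv⟩ := h.2.1 j a ⟨DF, P, z.1, hP, hz1⟩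
    obtain rfl : D' = DK := (hDU D').trans (hDU DK).symm
    exact ⟨S, v, hS, hv⟩
  | (m + 2) =>
    obtain ⟨D', T, v, hT, hv⟩ := h.1 m j a ⟨DF, P, z.1, hP, hz1⟩
    obtain rfl : D' = DK := (hDU D').trans (hDU DK).symm
    exact ⟨T, v, hT, hv⟩

theorem isZero (φ : k →+* F) (ψ : k →+* K) (h : KernelLe φ ψ) (m j : ℕ) (a : GT k m j)
    (ha : IsZeroIn φ m j a) : IsZeroIn ψ m j a := by
  obtain ⟨P, hP, hz⟩ := ha
  match m with
  | 0 => exact ⟨fun _ => PUnit.unit, trivial, rfl⟩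
  | 1 =>
    obtain ⟨S, hS, hv⟩ := h.2.2.2 (j + 1) a ⟨P, hP, hz⟩
    exact ⟨S, hS, hv⟩
  | (m + 2) =>
    obtain ⟨T, hT, hv⟩ := h.2.2.1 m j a ⟨P, hP, hz⟩
    exact ⟨T, hT, hv⟩

end

end Pool.Agent.X321.CV
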