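import Pool.Agent.X321.CV.Curve

set_option autoImplicit false

/-!
# Injectivity of `Γ(k,n) ⊗ ℚ → Γ(X,n) ⊗ ℚ`
-/

namespace Pool.Agent.X321.CV

open GonP Pool.Agent.TH358.BG Pool.Agent.X321.HS
open Pool.Agent.TH358.GP (Induced InducedL exists_T exists_S isLin)
open Pool.Agent.X321.UP (CohInjective comm_d comm_e cohInjective exClosed_algClosed)

variable {k F : Type} [Field k] [Field F]

/-- Let `F` be the function field of a curve `X` over `k`, `φ : k → F`. For `n ≥ 2` the map
`a ↦ (φ a, 0)` from `Γ(k,n) ⊗ ℚ` to `Γ(X,n) ⊗ ℚ` is injective on all terms, commutes with the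
differentials if the residue maps `res` vanish on constants, and is injective on all cohomology
groups: if the image of an element `a` is a boundary in `Γ(X,n) ⊗ ℚ`, then `a` is a boundary. This
holds for all sets `X` of closed points, residue fields `κ x`, and residue maps. -/
def ConstInjective (φ : k →+* F) : Prop :=
  ∃ P : ∀ m j, GT k m j → GT F m j,
    (∀ m j, GInd φ m j (P m j) ∧ Function.Injective (P m j)) ∧
    ∀ (X : Type) (κ : X → Type) [∀ x, Field (κ x)] (Dk : Differentials k) (DF : Differentials F)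
      (Dκ : ∀ x, Differentials (κ x)) (res : Res F κ),
      ((∀ m j a, res m j (P (m + 1) j a) = 0) →
        ∀ m j a, tot DF Dκ res m j (P (m + 1) j a, 0) = (P m (j + 1) (gd Dk m j a), 0)) ∧
      ∀ m j (a : GT k m (j + 1)) (z : XT F κ (m + 1) j),
        tot DF Dκ res m j z = (P m (j + 1) a, 0) → ∃ w, gd Dk m j w = a

/-- the maps of the terms `GT` -/
noncomputable def gmap (T : ∀ m j : ℕ, TQ k (m + 2) j → TQ F (m + 2) j)
    (S : ∀ j : ℕ, LQ k j → LQ F j) : ∀ m j, GT k m j → GT F m j
  | 0, _ => fun _ => PUnit.unit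
  | 1, j => S (j + 1)
  | (m + 2), j => T m j

theorem constInjective (φ : k →+* F) (h : CohInjective φ) : ConstInjective φ := by
  obtain ⟨T, S, hT, hS, hc⟩ := h
  refine ⟨gmap T S, ?_, ?_⟩
  · intro m j
    match m with
    | 0 => exact ⟨trivial, fun _ _ _ => rfl⟩
    | 1 => exact hS (j + 1)
    | (m + 2) => exact hT m j
  · intro X κ _ Dk DF Dκ res
    obtain ⟨h1, h2, h3, h4⟩ := hc Dk DF
    refine ⟨fun hres m j a => ?_, fun m j a z hz => ?_⟩
    · refine Prod.ext ?_ ?_
      · match m with
        | 0 => rfl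
        | 1 => exact (h2 j a).symm
        | (m + 2) => exact (h1 m j a).symm
      · change res m j (gmap T S (m + 1) j a) -
          (0 : Π₀ x, RT (κ x) (m + 1) j).mapRange (fun x => rd (Dκ x) m j) _ = 0
        rw [hres m j a, DFinsupp.mapRange_zero, sub_zero]
    · have hz1 : gd DF m j z.1 = gmap T S m (j + 1) a := congrArg Prod.fst hz
      match m with
      | 0 => exact ⟨0, rfl⟩
      | 1 => exact h4 j a z.1 hz1
      | (m + 2) => exact h3 m j a z.1 hz1

theorem constInj_laurent (φ : k →+* F) (χ : F →+* LaurentSeries k)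
    (h : χ.comp φ = HahnSeries.C) : ConstInjective φ := by
  apply constInjective
  apply cohInj_sub φ χ
  rw [h]
  exact cohInj_laurent k

theorem constInj_algClosed [IsAlgClosed k] (φ : k →+* F) : ConstInjective φ := by
  apply constInjective
  let _ : Algebra k F := φ.toAlgebra
  exact cohInjective (exClosed_algClosed k F)

end Pool.Agent.X321.CV
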